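import Pool.Agent.helper36.MP.SpecP

set_option autoImplicit false

open Complex Metric Set Filter Topology MeasureTheory

noncomputable section

namespace MPS

/-- circle sub-mean value property as a lower integral over `(-π, π)`. -/
theorem HSM_circ {g : ℂ → ℂ} {a : ℂ} {r ρ : ℝ} (h0 : 0 < ρ) (hρ : ρ < r) (hg : DifferentiableOn ℂ g (ball a r)) :
    ENNReal.ofReal (2 * Real.pi * ‖g a‖) ≤
      ∫⁻ θ in Ioo (-Real.pi) Real.pi, ENNReal.ofReal ‖g (circleMap a ρ θ)‖ := by
  have hcl : closedBall a ρ ⊆ ball a r := closedBall_subset_ball hρ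
  have hd : DiffContOnCl ℂ g (ball a |ρ|) := by
    rw [abs_of_pos h0]
    refine (DifferentiableOn.diffContOnCl ?_)
    rw [closure_ball a h0.ne']
    exact hg.mono hcl
  have h1 := hd.circleAverage
  have hcont : Continuous fun θ : ℝ => g (circleMap a ρ θ) := by
    refine hg.continuousOn.comp_continuous (continuous_circleMap a ρ) fun θ => hcl ?_
    exact circleMap_mem_closedBall a h0.le θ
  have h2 : 2 * Real.pi * ‖g a‖ ≤ ∫ θ in (0 : ℝ)..(2 * Real.pi), ‖g (circleMap a ρ θ)‖ := by
    rw [← h1, Real.circleAverage_def, norm_smul, norm_inv, Real.norm_of_nonneg Real.two_pi_pos.le, ← mul_assoc,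
      mul_inv_cancel₀ Real.two_pi_pos.ne', one_mul]
    exact intervalIntegral.norm_integral_le_integral_norm Real.two_pi_pos.le
  have hper : Function.Periodic (fun θ : ℝ => ‖g (circleMap a ρ θ)‖) (2 * Real.pi) := by
    intro θ
    show ‖g (circleMap a ρ (θ + 2 * Real.pi))‖ = _
    rw [periodic_circleMap a ρ θ]
  have h3 : ∫ θ in (0 : ℝ)..(2 * Real.pi), ‖g (circleMap a ρ θ)‖ =
      ∫ θ in (-Real.pi)..Real.pi, ‖g (circleMap a ρ θ)‖ := by
    have := hper.intervalIntegral_add_eq 0 (-Real.pi)
    rw [zero_add] at this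
    rw [this]
    congr 1
    ring
  rw [h3, intervalIntegral.integral_of_le (by linarith [Real.pi_pos]), integral_Ioc_eq_integral_Ioo] at h2
  refine (ENNReal.ofReal_le_ofReal h2).trans (le_of_eq ?_)
  refine ofReal_integral_eq_lintegral_ofReal ?_ (Eventually.of_forall fun θ => norm_nonneg _)
  have : IntegrableOn (fun θ : ℝ => ‖g (circleMap a ρ θ)‖) (Icc (-Real.pi) Real.pi) :=
    (hcont.norm.continuousOn).integrableOn_compact isCompact_Icc
  exact this.mono_set Ioo_subset_Icc_self

/-- area sub-mean value property for one function. -/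
theorem HSM_one {g : ℂ → ℂ} {a : ℂ} {r : ℝ} (hr : 0 < r) (hg : DifferentiableOn ℂ g (ball a r)) :
    ENNReal.ofReal (Real.pi * r ^ 2 * ‖g a‖) ≤ ∫⁻ z in ball a r, ENNReal.ofReal ‖g z‖ := by
  classical
  set φ : ℂ → ENNReal := (ball a r).indicator fun z => ENNReal.ofReal ‖g z‖ with hφ
  have hφm : Measurable φ := by
    rw [hφ, ← Set.piecewise_eq_indicator]
    refine ContinuousOn.measurable_piecewise ?_ continuousOn_const measurableSet_ball
    exact ENNReal.continuous_ofReal.comp_continuousOn hg.continuousOn.norm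
  rw [← lintegral_indicator measurableSet_ball, ← hφ, ← lintegral_add_left_eq_self φ a,
    ← Complex.lintegral_comp_polarCoord_symm]
  have hsub : Ioo (0 : ℝ) r ×ˢ Ioo (-Real.pi) Real.pi ⊆ polarCoord.target := by
    rintro ⟨x, y⟩ ⟨hx, hy⟩
    exact ⟨hx.1, hy⟩
  refine le_trans ?_ (lintegral_mono_set hsub)
  have hcs : Continuous fun p : ℝ × ℝ => (Complex.polarCoord.symm p : ℂ) := by
    have : (fun p : ℝ × ℝ => (Complex.polarCoord.symm p : ℂ)) =
        fun p : ℝ × ℝ => (p.1 : ℂ) * (Real.cos p.2 + Real.sin p.2 * Complex.I) := by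
      funext p
      exact Complex.polarCoord_symm_apply p
    rw [this]
    fun_prop
  have hmeas : Measurable fun p : ℝ × ℝ => ENNReal.ofReal p.1 • φ (a + Complex.polarCoord.symm p) := by
    refine Measurable.mul (ENNReal.measurable_ofReal.comp measurable_fst) ?_
    exact hφm.comp (measurable_const.add hcs.measurable)
  rw [Measure.volume_eq_prod, setLIntegral_prod _ hmeas.aemeasurable]
  have hin : ∀ ρ ∈ Ioo (0 : ℝ) r, ENNReal.ofReal ρ * ENNReal.ofReal (2 * Real.pi * ‖g a‖) ≤
      ∫⁻ θ in Ioo (-Real.pi) Real.pi, ENNReal.ofReal ρ • φ (a + Complex.polarCoord.symm (ρ, θ)) := by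
    intro ρ hρ
    have h1 := HSM_circ hρ.1 hρ.2 hg
    simp only [smul_eq_mul]
    rw [lintegral_const_mul']
    · refine mul_le_mul' le_rfl (h1.trans (le_of_eq ?_))
      refine lintegral_congr fun θ => ?_
      have h2 : a + Complex.polarCoord.symm (ρ, θ) = circleMap a ρ θ := by
        rw [Complex.polarCoord_symm_apply, circleMap, Complex.exp_mul_I]
        push_cast
        rfl
      rw [h2, hφ, indicator_of_mem]
      have := circleMap_mem_closedBall a hρ.1.le θ
      exact closedBall_subset_ball hρ.2 this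
    · exact ENNReal.ofReal_ne_top
  calc ENNReal.ofReal (Real.pi * r ^ 2 * ‖g a‖)
      = ∫⁻ ρ in Ioo (0 : ℝ) r, ENNReal.ofReal ρ * ENNReal.ofReal (2 * Real.pi * ‖g a‖) := by
        rw [lintegral_mul_const' _ _ ENNReal.ofReal_ne_top]
        have h5 : ∫⁻ ρ in Ioo (0 : ℝ) r, ENNReal.ofReal ρ = ENNReal.ofReal (r ^ 2 / 2) := by
          rw [← ofReal_integral_eq_lintegral_ofReal]
          · congr 1
            rw [← integral_Ioc_eq_integral_Ioo, ← intervalIntegral.integral_of_le hr.le, integral_id]
            ring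
          · have : IntegrableOn (fun x : ℝ => x) (Icc 0 r) := continuous_id.continuousOn.integrableOn_compact isCompact_Icc
            exact this.mono_set Ioo_subset_Icc_self
          · filter_upwards [ae_restrict_mem measurableSet_Ioo] with x hx
            exact hx.1.le
        rw [h5, ← ENNReal.ofReal_mul (by positivity)]
        congr 1
        ring
    _ ≤ _ := by
        refine setLIntegral_mono' measurableSet_Ioo hin

theorem HSM : HSM_stmt := by
  intro ι s h a r hr hd
  -- unimodular coefficients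
  set c : ι → ℂ := fun i => if h i a = 0 then 1 else (starRingEnd ℂ) (h i a) / ‖h i a‖ with hc
  have hc1 : ∀ i, ‖c i‖ = 1 := by
    intro i
    simp only [hc]
    split_ifs with h0
    · exact norm_one
    · rw [norm_div, RCLike.norm_conj, Complex.norm_real, norm_norm, div_self (norm_ne_zero_iff.mpr h0)]
  have hc2 : ∀ i, c i * h i a = (‖h i a‖ : ℂ) := by
    intro i
    simp only [hc]
    split_ifs with h0
    · rw [h0]
      simp
    · have hn : (‖h i a‖ : ℂ) ≠ 0 := by
        exact_mod_cast norm_ne_zero_iff.mpr h0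
      rw [div_mul_eq_mul_div, div_eq_iff hn, mul_comm, Complex.mul_conj, Complex.normSq_eq_norm_sq]
      push_cast
      ring
  have hgd : DifferentiableOn ℂ (fun z => ∑ i ∈ s, c i * h i z) (ball a r) := by
    refine DifferentiableOn.fun_sum fun i hi => (hd i hi).const_mul _
  have h1 := HSM_one hr hgd
  have h2 : ‖∑ i ∈ s, c i * h i a‖ = ∑ i ∈ s, ‖h i a‖ := by
    rw [Finset.sum_congr rfl fun i _ => hc2 i, ← Complex.ofReal_sum, Complex.norm_real, Real.norm_of_nonneg]
    exact Finset.sum_nonneg fun i _ => norm_nonneg _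
  rw [h2] at h1
  refine h1.trans (lintegral_mono fun z => ENNReal.ofReal_le_ofReal ?_)
  refine (norm_sum_le _ _).trans (Finset.sum_le_sum fun i _ => ?_)
  rw [norm_mul, hc1, one_mul]

end MPS
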