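import Pool.Agent.helper36.MP.SpecQ

set_option autoImplicit false

open Complex Metric Set Filter Topology MeasureTheory

noncomputable section

namespace MPS

theorem MU2 (hP2A : P2A_stmt) (hP2L : P2L_stmt) (hLEA : LEA_stmt) (hHSM : HSM_stmt) :
    MU2_stmt := by
  intro n k _ c b g ψ R ε y ρ₁ χ G1 ps T G Q H
  have hP := hP2L n k c b g ψ R ε y ρ₁ χ G1 ps T G Q H
  have hA := hP2A n k c b g ψ R ε y ρ₁ χ G1 ps T G Q H
  set x : ℂ := (y : ℂ) * I with hx
  set f : ℕ → ℂ → ENNReal := fun q w => ENNReal.ofReal (lev n c b g G q w) with hf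
  set S : ℕ → Set ℂ := fun q => ball x (T q) with hS
  set ν : Measure ℂ := ∑ q ∈ Finset.Icc 1 Q, (volume.restrict (S q)).withDensity (f q) with hν
  have hmeas : Measurable (fun w : ℂ => ρ₁ - ‖w - x‖) :=
    (continuous_const.sub (continuous_id.sub continuous_const).norm).measurable
  refine ⟨ν.map (fun w => ρ₁ - ‖w - x‖), ?_, ?_⟩
  · rw [Measure.map_apply hmeas MeasurableSet.univ, preimage_univ, hν,
      Measure.finsetSum_apply]
    calc ∑ q ∈ Finset.Icc 1 Q, (volume.restrict (S q)).withDensity (f q) univ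
        = ∑ q ∈ Finset.Icc 1 Q, ∫⁻ w in S q, f q w := by
          refine Finset.sum_congr rfl fun q _ => ?_
          rw [withDensity_apply _ MeasurableSet.univ, Measure.restrict_univ]
      _ ≤ ENNReal.ofReal (4000 * ε) := hP
  · intro p hp1 hpQ s t w hs ht0 hw
    have hanti : ∀ m, m ≤ p → T p ≤ T m := by
      intro m hm
      have : ∀ d, m + d ≤ p → T (m + d) ≤ T m := by
        intro d
        induction d with
        | zero => intro _; exact le_rfl
        | succ d ih =>
          intro hd
          exact (H.sys.anti (m + d) (by omega)).trans (ih (by omega))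
      have h := this (p - m) (by omega)
      rwa [Nat.add_sub_cancel' hm] at h
    have hLS := hA.2.2.2.1 p hpQ
    have hL := hLEA n k c b g G (ball x (T p)) p H.su2.su.hn H.su2.su.cyc isOpen_ball hLS
    have hball : ∀ z ∈ ball w (t / 2), z ∈ ball x (T p) ∧ s + t / 2 < ρ₁ - ‖z - x‖ ∧
        ρ₁ - ‖z - x‖ < s + 3 * t / 2 := by
      intro z hz
      rw [mem_ball, dist_eq_norm] at hz
      have h1 : ‖z - x‖ ≤ ‖z - w‖ + ‖w - x‖ := by
        have : z - x = (z - w) + (w - x) := by ring
        rw [this]
        exact norm_add_le _ _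
      have h2 : ‖w - x‖ ≤ ‖z - w‖ + ‖z - x‖ := by
        have : w - x = (z - x) - (z - w) := by ring
        rw [this]
        refine (norm_sub_le _ _).trans ?_
        linarith
      rw [hw] at h1 h2
      refine ⟨?_, by linarith, by linarith⟩
      rw [mem_ball, dist_eq_norm]
      linarith
    have hsubHP : ball w (t / 2) ⊆ ball x (T p) := fun z hz => (hball z hz).1
    -- the family
    set hh : ℕ × ℕ → ℂ → ℂ := fun i => if i.2 = 0 then eef n c b g G (i.1 - 1)
      else bet n b g G i.1 i.2 with hhdef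
    have hsum : ∀ z, ∑ i ∈ Finset.Icc 1 p ×ˢ Finset.range n, ‖hh i z‖ =
        ∑ q ∈ Finset.Icc 1 p, lev n c b g G q z := by
      intro z
      rw [Finset.sum_product]
      refine Finset.sum_congr rfl fun q _ => ?_
      have hn0 : 0 < n := by have := H.su2.su.hn; omega
      rw [Finset.range_eq_Ico, Finset.sum_eq_sum_Ico_succ_bot hn0]
      rw [lev, add_comm]
      congr 1
      refine Finset.sum_congr rfl fun j hj => ?_
      have hj0 : j ≠ 0 := by
        have := (Finset.mem_Ico.mp hj).1
        omega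
      simp only [hhdef, hj0, if_false]
    have hdiff : ∀ i ∈ Finset.Icc 1 p ×ˢ Finset.range n, DifferentiableOn ℂ (hh i)
        (ball x (T p)) := by
      intro i hi
      rw [Finset.mem_product, Finset.mem_Icc] at hi
      by_cases h0 : i.2 = 0
      · have := hL.2.2.2.2.2 (i.1 - 1) (by omega)
        simp only [hhdef, h0, if_true]
        exact this
      · have := hL.2.2.2.2.1 (i.1 - 1) (by omega) i.2
        rw [Nat.sub_add_cancel hi.1.1] at this
        simp only [hhdef, h0, if_false]
        exact this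
    have hkey := hHSM (ℕ × ℕ) (Finset.Icc 1 p ×ˢ Finset.range n) hh w (t / 2) (by positivity)
      (fun i hi => (hdiff i hi).mono hsubHP)
    simp only [hsum] at hkey
    have hlevnn : ∀ q z, 0 ≤ lev n c b g G q z := by
      intro q z
      unfold lev
      positivity
    have hcont : ∀ q ∈ Finset.Icc 1 p, ContinuousOn (lev n c b g G q) (ball x (T p)) := by
      intro q hq
      rw [Finset.mem_Icc] at hq
      have e1 : lev n c b g G q = fun z => (∑ j ∈ Finset.Ico 1 n,
        ‖bet n b g G q j z‖) + ‖eef n c b g G (q - 1) z‖ := rfl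
      rw [e1]
      refine ContinuousOn.add (continuousOn_finsetSum _ fun j _ => ?_) ?_
      · have := hL.2.2.2.2.1 (q - 1) (by omega) j
        rw [Nat.sub_add_cancel hq.1] at this
        exact this.continuousOn.norm
      · exact (hL.2.2.2.2.2 (q - 1) (by omega)).continuousOn.norm
    have hint : ∫⁻ z in ball w (t / 2), ENNReal.ofReal (∑ q ∈ Finset.Icc 1 p,
        lev n c b g G q z) = ∑ q ∈ Finset.Icc 1 p, ∫⁻ z in ball w (t / 2), f q z := by
      rw [← lintegral_finsetSum']
      · refine lintegral_congr fun z => ?_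
        rw [ENNReal.ofReal_sum_of_nonneg (fun q _ => hlevnn q z)]
      · intro q hq
        exact ((hcont q hq).mono hsubHP).aemeasurable measurableSet_ball |>.ennreal_ofReal
    have hpre : (ν.map (fun w : ℂ => ρ₁ - ‖w - x‖)) (Ioo (s + t / 2) (s + 3 * t / 2)) =
        ∑ q ∈ Finset.Icc 1 Q, ∫⁻ z in (fun w : ℂ => ρ₁ - ‖w - x‖) ⁻¹' (Ioo (s + t / 2) (s + 3 * t / 2)) ∩
          S q, f q z := by
      rw [Measure.map_apply hmeas measurableSet_Ioo, hν, Measure.finsetSum_apply]
      refine Finset.sum_congr rfl fun q _ => ?_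
      rw [withDensity_apply _ (hmeas measurableSet_Ioo), Measure.restrict_restrict
        (hmeas measurableSet_Ioo)]
    have hle : ENNReal.ofReal (Real.pi * (t / 2) ^ 2 * ∑ q ∈ Finset.Icc 1 p,
        lev n c b g G q w) ≤ (ν.map (fun w : ℂ => ρ₁ - ‖w - x‖)) (Ioo (s + t / 2) (s + 3 * t / 2)) := by
      refine hkey.trans ?_
      rw [hint, hpre]
      calc ∑ q ∈ Finset.Icc 1 p, ∫⁻ z in ball w (t / 2), f q z
          ≤ ∑ q ∈ Finset.Icc 1 p, ∫⁻ z in (fun w : ℂ => ρ₁ - ‖w - x‖) ⁻¹'
            (Ioo (s + t / 2) (s + 3 * t / 2)) ∩ S q, f q z := by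
            refine Finset.sum_le_sum fun q hq => lintegral_mono_set ?_
            intro z hz
            have h1 := hball z hz
            exact ⟨⟨h1.2.1, h1.2.2⟩, ball_subset_ball (hanti q (Finset.mem_Icc.mp hq).2) h1.1⟩
        _ ≤ _ := by
            refine Finset.sum_le_sum_of_subset ?_
            exact Finset.Icc_subset_Icc le_rfl hpQ
    calc ENNReal.ofReal (∑ q ∈ Finset.Icc 1 p, lev n c b g G q w)
        = ENNReal.ofReal (4 / (Real.pi * t ^ 2)) * ENNReal.ofReal (Real.pi * (t / 2) ^ 2 *
            ∑ q ∈ Finset.Icc 1 p, lev n c b g G q w) := by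
          rw [← ENNReal.ofReal_mul (by positivity)]
          congr 1
          have hpi := Real.pi_ne_zero
          field_simp
          ring
      _ ≤ _ := mul_le_mul_right hle _

end MPS
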