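import Pool.Agent.helper36.MP.SpecN
import Pool.Agent.helper54.CR.Landau

set_option autoImplicit false

open Complex Metric Set Filter Topology MeasureTheory

noncomputable section

namespace MPS

/-- Gronwall along a segment for a function omitting `0` and `1`. -/
theorem NGF_gron {F : ℂ → ℂ} {a b : ℂ} {r : ℝ} (hr : 0 < r)
    (h : ∀ t ∈ Icc (0 : ℝ) 1, DifferentiableOn ℂ F (ball (a + t * (b - a)) r) ∧
      ∀ z ∈ ball (a + t * (b - a)) r, F z ≠ 0 ∧ F z ≠ 1) :
    1 + |Real.log ‖F b‖| ≤ Real.exp (4000 / r * ‖b - a‖) * (1 + |Real.log ‖F a‖|) := by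
  rcases eq_or_ne a b with hab | hab
  · subst hab
    simp
  set γ : ℝ → ℂ := fun t => a + t * (b - a) with hγ
  have hγd : ∀ t : ℝ, HasDerivAt γ (b - a) t := by
    intro t
    have h1 : HasDerivAt (fun t : ℝ => (t : ℂ)) 1 t := Complex.ofRealCLM.hasDerivAt
    have h2 := (h1.mul_const (b - a)).const_add a
    rwa [one_mul] at h2
  set K : ℝ := 4000 / r * ‖b - a‖ with hK
  have hKpos : 0 < K := by
    have : 0 < ‖b - a‖ := norm_pos_iff.mpr (sub_ne_zero.mpr hab.symm)
    positivity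
  set G : ℝ → ℝ := fun t => Real.log ‖F (γ t)‖ with hG
  -- the derivative
  have hGd : ∀ t ∈ Icc (0 : ℝ) 1, HasDerivAt G ((deriv F (γ t) / F (γ t) * (b - a)).re) t := by
    intro t ht
    obtain ⟨hd, h01⟩ := h t ht
    have hmem : γ t ∈ ball (γ t) r := mem_ball_self hr
    have hF0 : F (γ t) ≠ 0 := (h01 _ hmem).1
    have hFd : HasDerivAt F (deriv F (γ t)) (γ t) :=
      (hd.differentiableAt (isOpen_ball.mem_nhds hmem)).hasDerivAt
    have h1 : HasDerivAt (fun τ : ℝ => F (γ τ)) (deriv F (γ t) * (b - a)) t := hFd.comp_of_eq t (hγd t) rfl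
    have h2 : HasDerivAt (fun τ : ℝ => F (γ τ) / F (γ t)) (deriv F (γ t) * (b - a) / F (γ t)) t := h1.div_const _
    have h3 : HasDerivAt (fun τ : ℝ => Complex.log (F (γ τ) / F (γ t)))
        (deriv F (γ t) * (b - a) / F (γ t) / (F (γ t) / F (γ t))) t := by
      refine h2.clog_real ?_
      rw [div_self hF0]
      exact Complex.one_mem_slitPlane
    rw [div_self hF0, div_one] at h3
    have h4 : HasDerivAt (fun τ : ℝ => (Complex.log (F (γ τ) / F (γ t))).re) ((deriv F (γ t) * (b - a) / F (γ t)).re) t :=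
      Complex.reCLM.hasFDerivAt.comp_hasDerivAt t h3
    have h5 : (fun τ : ℝ => G t + (Complex.log (F (γ τ) / F (γ t))).re) =ᶠ[𝓝 t] G := by
      have hc : ContinuousAt (fun τ : ℝ => F (γ τ)) t := h1.continuousAt
      have hne : ∀ᶠ τ : ℝ in 𝓝 t, F (γ τ) ≠ 0 := hc.eventually_ne hF0
      filter_upwards [hne] with τ hτ
      rw [Complex.log_re, norm_div, Real.log_div (norm_ne_zero_iff.mpr hτ) (norm_ne_zero_iff.mpr hF0)]
      simp only [hG]
      ring
    have h6 := (h4.const_add (G t)).congr_of_eventuallyEq h5.symm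
    refine h6.congr_deriv ?_
    congr 1
    ring
  have hgr := norm_le_gronwallBound_of_norm_deriv_right_le (f := G)
    (f' := fun t => (deriv F (γ t) / F (γ t) * (b - a)).re) (δ := |Real.log ‖F a‖|) (K := K) (ε := K) (a := 0) (b := 1)
    (fun t ht => (hGd t ht).continuousAt.continuousWithinAt)
    (fun t ht => (hGd t ⟨ht.1, ht.2.le⟩).hasDerivWithinAt)
    (by
      simp only [hG, hγ, Complex.ofReal_zero, zero_mul, add_zero, Real.norm_eq_abs]
      exact le_refl _)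
    (by
      intro t ht
      obtain ⟨hd, h01⟩ := h t ⟨ht.1, ht.2.le⟩
      have hl := Pool.Agent.helper54.CR.landau hr hd (fun z hz => (h01 z hz).1) (fun z hz => (h01 z hz).2)
      calc ‖(deriv F (γ t) / F (γ t) * (b - a)).re‖ ≤ ‖deriv F (γ t) / F (γ t) * (b - a)‖ := by
            rw [Real.norm_eq_abs]
            exact Complex.abs_re_le_norm _
        _ = ‖deriv F (γ t) / F (γ t)‖ * ‖b - a‖ := norm_mul _ _
        _ ≤ 4000 / r * (1 + |Real.log ‖F (γ t)‖|) * ‖b - a‖ := by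
            refine mul_le_mul_of_nonneg_right hl (norm_nonneg _)
        _ = K * ‖G t‖ + K := by
            rw [hK, Real.norm_eq_abs]
            ring) 1 ⟨zero_le_one, le_rfl⟩
  rw [gronwallBound_of_K_ne_0 hKpos.ne'] at hgr
  simp only [sub_zero, mul_one, div_self hKpos.ne', one_mul] at hgr
  have hG1 : G 1 = Real.log ‖F b‖ := by
    simp only [hG, hγ, Complex.ofReal_one, one_mul, add_sub_cancel]
  rw [hG1, Real.norm_eq_abs] at hgr
  linarith

theorem NGF : NGF_stmt := by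
  intro ρ₀ hρ0 hρ1
  set q : ℝ := Real.exp (-(ρ₀ / 16)) with hq
  have hq1 : q < 1 := by
    rw [hq, Real.exp_lt_one_iff]
    linarith
  have hq0 : 0 < q := Real.exp_pos _
  set M : ℝ := 2 * Real.exp (4000 / (1 - q)) with hM
  have hM0 : 0 < M := by positivity
  refine ⟨5 + 8 * Real.exp (Real.exp 1000 * (1 + M)), ?_, ?_⟩
  · have := Real.exp_pos (Real.exp 1000 * (1 + M))
    linarith
  intro k _ b g i ψ χ y hk hinj hb hPN hNat hEq w hw
  have : Fact (1 < k) := ⟨by omega⟩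
  have hli : i + 1 ≠ i := by
    intro h
    exact one_ne_zero (add_left_cancel (h.trans (add_zero i).symm))
  set l : ZMod k := i + 1 with hl
  set D : ℂ := b i - b l with hD
  have hD0 : D ≠ 0 := sub_ne_zero.mpr (hinj.ne hli.symm)
  have hD8 : ‖D‖ ≤ 8 := by
    calc ‖D‖ ≤ ‖b i‖ + ‖b l‖ := norm_sub_le _ _
      _ ≤ 4 + 4 := add_le_add (hb i) (hb l)
      _ = 8 := by norm_num
  -- the pole map
  set w₀ : ℂ := (y : ℂ) * I - ((ρ₀ / 16 : ℝ) : ℂ) with hw₀
  set u₀ : ℂ := Complex.exp w₀ with hu₀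
  have hw₀re : w₀.re = -(ρ₀ / 16) := by
    rw [hw₀]
    simp
  have hu₀n : ‖u₀‖ = q := by
    rw [hu₀, Complex.norm_exp, hw₀re]
  set F₀ : ℂ → ℂ := fun u => (ψ u - b l) / D with hF₀
  have hF₀d : DifferentiableOn ℂ F₀ (ball 0 1) := (hPN.diff.sub_const _).div_const _
  have hF₀0 : ∀ u ∈ ball (0 : ℂ) 1, F₀ u ≠ 0 := by
    intro u hu h0
    rw [hF₀] at h0
    rcases eq_or_ne u 0 with rfl | hu0
    · simp only at h0
      rw [hPN.val] at h0
      exact div_ne_zero hD0 hD0 h0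
    · exact div_ne_zero (sub_ne_zero.mpr (hPN.av u hu hu0 l)) hD0 h0
  have hF₀one : F₀ 0 = 1 := by
    simp only [hF₀]
    rw [hPN.val]
    exact div_self hD0
  have hF₀1 : ∀ u ∈ ball (0 : ℂ) 1, F₀ u = 1 → u = 0 := by
    intro u hu h1
    by_contra hu0
    simp only [hF₀] at h1
    rw [div_eq_one_iff_eq hD0, hD] at h1
    exact hPN.av u hu hu0 i (by linear_combination h1)
  obtain ⟨s, hsd, hs0, hs⟩ := Pool.Agent.helper98.ILF.exists_lift_pow (n := 2) two_ne_zero (w := 0) (u := 1) one_pos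
    hF₀d hF₀0 (by rw [hF₀one]; norm_num)
  have hS := NGF_gron (F := fun u => -s u) (a := 0) (b := u₀) (r := 1 - q) (by linarith) (by
    intro t ht
    have hsub : ball (0 + (t : ℂ) * (u₀ - 0)) (1 - q) ⊆ ball (0 : ℂ) 1 := by
      intro z hz
      rw [mem_ball, dist_eq_norm] at hz
      rw [mem_ball, dist_zero_right]
      have h1 : ‖(t : ℂ) * u₀‖ ≤ q := by
        rw [norm_mul, hu₀n, Complex.norm_real, Real.norm_eq_abs, abs_of_nonneg ht.1]
        calc t * q ≤ 1 * q := mul_le_mul_of_nonneg_right ht.2 hq0.le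
          _ = q := one_mul q
      have h2 : z = (z - (0 + (t : ℂ) * (u₀ - 0))) + (t : ℂ) * u₀ := by ring
      rw [h2]
      refine (norm_add_le _ _).trans_lt ?_
      linarith
    refine ⟨(hsd.mono hsub).neg, fun z hz => ⟨?_, ?_⟩⟩
    · intro h0
      have h1 := hs z (hsub hz)
      have : s z = 0 := neg_eq_zero.mp h0
      rw [this] at h1
      exact hF₀0 z (hsub hz) (by rw [← h1]; norm_num)
    · intro h1
      have h2 := hs z (hsub hz)
      have h3 : s z = -1 := by linear_combination -h1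
      rw [h3] at h2
      have hz0 := hF₀1 z (hsub hz) (by rw [← h2]; norm_num)
      rw [hz0, hs0] at h3
      norm_num at h3)
  -- the bound at `u₀`
  have hF₀u₀ : |Real.log ‖F₀ u₀‖| ≤ M := by
    have hu₀b : u₀ ∈ ball (0 : ℂ) 1 := by
      rw [mem_ball, dist_zero_right, hu₀n]
      exact hq1
    rw [← hs u₀ hu₀b, norm_pow, Real.log_pow]
    have h1 : 1 + |Real.log ‖s u₀‖| ≤ Real.exp (4000 / (1 - q)) := by
      have h2 : 1 + |Real.log ‖-s u₀‖| ≤ Real.exp (4000 / (1 - q) * ‖u₀ - 0‖) * (1 + |Real.log ‖-s 0‖|) := hS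
      rw [hs0, norm_neg, norm_neg, norm_one, Real.log_one, abs_zero, add_zero, mul_one, sub_zero, hu₀n] at h2
      refine h2.trans (Real.exp_le_exp.mpr ?_)
      have : 0 ≤ 4000 / (1 - q) := by
        have : 0 < 1 - q := by linarith
        positivity
      nlinarith
    rw [abs_mul]
    push_cast
    rw [abs_two, hM]
    linarith [abs_nonneg (Real.log ‖s u₀‖)]
  -- the flat disc
  set F : ℂ → ℂ := fun v => (χ v - b l) / D with hF
  have hFw₀ : F w₀ = F₀ u₀ := by
    simp only [hF, hF₀]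
    rw [hEq (show w₀ ∈ HP 0 by
      show w₀.re < -0
      rw [hw₀re]
      linarith)]
    rfl
  have hdist0 : ‖w₀ - (y : ℂ) * I‖ = ρ₀ / 16 := by
    rw [hw₀, sub_sub_cancel_left, norm_neg, Complex.norm_real, Real.norm_eq_abs, abs_of_pos (by positivity)]
  have hw' : ‖w - (y : ℂ) * I‖ < ρ₀ / 16 := by
    rwa [mem_ball, dist_eq_norm] at hw
  have hG := NGF_gron (F := F) (a := w₀) (b := w) (r := ρ₀ / 2) (by positivity) (by
    intro t ht
    have hsub : ball (w₀ + (t : ℂ) * (w - w₀)) (ρ₀ / 2) ⊆ HP 0 ∪ ball ((y : ℂ) * I) ρ₀ := by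
      intro z hz
      right
      rw [mem_ball, dist_eq_norm] at hz ⊢
      have h1 : z - (y : ℂ) * I = (z - (w₀ + (t : ℂ) * (w - w₀))) + ((1 - t : ℝ) : ℂ) * (w₀ - (y : ℂ) * I) +
          (t : ℂ) * (w - (y : ℂ) * I) := by
        push_cast
        ring
      rw [h1]
      have h2 : ‖((1 - t : ℝ) : ℂ) * (w₀ - (y : ℂ) * I)‖ ≤ ρ₀ / 16 := by
        rw [norm_mul, hdist0, Complex.norm_real, Real.norm_eq_abs, abs_of_nonneg (by linarith [ht.2])]
        nlinarith [ht.1, ht.2]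
      have h3 : ‖(t : ℂ) * (w - (y : ℂ) * I)‖ ≤ ρ₀ / 16 := by
        rw [norm_mul, Complex.norm_real, Real.norm_eq_abs, abs_of_nonneg ht.1]
        nlinarith [ht.1, ht.2, norm_nonneg (w - (y : ℂ) * I)]
      calc ‖(z - (w₀ + (t : ℂ) * (w - w₀))) + ((1 - t : ℝ) : ℂ) * (w₀ - (y : ℂ) * I) + (t : ℂ) * (w - (y : ℂ) * I)‖
          ≤ ‖(z - (w₀ + (t : ℂ) * (w - w₀)))‖ + ‖((1 - t : ℝ) : ℂ) * (w₀ - (y : ℂ) * I)‖ +
            ‖(t : ℂ) * (w - (y : ℂ) * I)‖ := norm_add₃_le
        _ < ρ₀ := by linarith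
    refine ⟨((hNat.diff.mono hsub).sub_const _).div_const _, fun z hz => ⟨?_, ?_⟩⟩
    · exact div_ne_zero (sub_ne_zero.mpr (hNat.av z (hsub hz) l)) hD0
    · intro h1
      simp only [hF] at h1
      rw [div_eq_one_iff_eq hD0, hD] at h1
      exact hNat.av z (hsub hz) i (by linear_combination h1))
  rw [hFw₀] at hG
  have hFw : |Real.log ‖F w‖| ≤ Real.exp 1000 * (1 + M) := by
    have h1 : Real.exp (4000 / (ρ₀ / 2) * ‖w - w₀‖) ≤ Real.exp 1000 := by
      refine Real.exp_le_exp.mpr ?_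
      have h2 : ‖w - w₀‖ ≤ ρ₀ / 8 := by
        have : w - w₀ = (w - (y : ℂ) * I) - (w₀ - (y : ℂ) * I) := by ring
        rw [this]
        refine (norm_sub_le _ _).trans ?_
        rw [hdist0]
        linarith
      calc 4000 / (ρ₀ / 2) * ‖w - w₀‖ ≤ 4000 / (ρ₀ / 2) * (ρ₀ / 8) :=
            mul_le_mul_of_nonneg_left h2 (by positivity)
        _ = 1000 := by
            field_simp
            norm_num
    have h3 : Real.exp (4000 / (ρ₀ / 2) * ‖w - w₀‖) * (1 + |Real.log ‖F₀ u₀‖|) ≤ Real.exp 1000 * (1 + M) :=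
      mul_le_mul h1 (by linarith) (by positivity) (Real.exp_pos _).le
    linarith
  have hFn : ‖F w‖ ≤ Real.exp (Real.exp 1000 * (1 + M)) := by
    have hFw0 : 0 < ‖F w‖ := by
      rw [norm_pos_iff]
      refine div_ne_zero (sub_ne_zero.mpr (hNat.av w (Or.inr ?_) l)) hD0
      rw [mem_ball, dist_eq_norm]
      linarith
    rw [← Real.log_le_iff_le_exp hFw0]
    exact (le_abs_self _).trans hFw
  have hχ : χ w = b l + D * F w := by
    simp only [hF]
    field_simp
    ring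
  rw [hχ]
  have h9 : ‖D * F w‖ ≤ 8 * Real.exp (Real.exp 1000 * (1 + M)) := by
    rw [norm_mul]
    exact mul_le_mul hD8 hFn (norm_nonneg _) (by norm_num)
  calc ‖b l + D * F w‖ ≤ ‖b l‖ + ‖D * F w‖ := norm_add_le _ _
    _ ≤ 4 + 8 * Real.exp (Real.exp 1000 * (1 + M)) := add_le_add (hb l) h9
    _ < 5 + 8 * Real.exp (Real.exp 1000 * (1 + M)) := by linarith

end MPS
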